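import Pool.Agent.H18.CGR.Stmts

/-!
Row `NRA` of the board `cgr` (helper18).
-/

set_option autoImplicit false

noncomputable section

open Filter
open scoped Topology

namespace Pool.CGR

/-- A non-negative log-convex sequence bounded by `K 4^n` grows at the first step at most by the
factor `4`. -/
private theorem nra_growth (f : ℕ → ℝ) (K : ℝ) (h0 : ∀ n, 0 ≤ f n)
    (h1 : ∀ n, f (n + 1) ^ 2 ≤ f n * f (n + 2)) (h2 : ∀ n, f n ≤ K * 4 ^ n) :
    f 1 ≤ 4 * f 0 := by
  rcases (h0 0).eq_or_lt with hz | hp
  · have := h1 0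
    rw [← hz, zero_mul] at this
    have h3 : f 1 = 0 := by
      have : f 1 ^ 2 ≤ 0 := this
      nlinarith [sq_nonneg (f 1), h0 1]
    rw [h3, ← hz]; norm_num
  · by_contra hcon
    have hcon' : 4 * f 0 < f 1 := not_le.mp hcon
    set q : ℝ := f 1 / f 0 with hq
    have hq4 : 4 < q := by
      rw [hq, lt_div_iff₀ hp]; exact hcon'
    have hf1 : f 1 = q * f 0 := by
      rw [hq]; field_simp
    have hind : ∀ n, 0 < f n ∧ q * f n ≤ f (n + 1) := by
      intro n
      induction n with
      | zero => exact ⟨hp, le_of_eq hf1.symm⟩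
      | succ n ih =>
        obtain ⟨i1, i2⟩ := ih
        have i3 : 0 < f (n + 1) := by
          have : 0 < q * f n := mul_pos (by linarith) i1
          linarith
        refine ⟨i3, ?_⟩
        have i4 := h1 n
        have i5 : f n * (q * f (n + 1)) ≤ f n * f (n + 2) := by
          calc f n * (q * f (n + 1)) = (q * f n) * f (n + 1) := by ring
            _ ≤ f (n + 1) * f (n + 1) := mul_le_mul_of_nonneg_right i2 i3.le
            _ = f (n + 1) ^ 2 := by ring
            _ ≤ f n * f (n + 2) := i4
        exact le_of_mul_le_mul_left i5 i1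
    have hgeo : ∀ n, q ^ n * f 0 ≤ f n := by
      intro n
      induction n with
      | zero => simp
      | succ n ih =>
        calc q ^ (n + 1) * f 0 = q * (q ^ n * f 0) := by ring
          _ ≤ q * f n := mul_le_mul_of_nonneg_left ih (by linarith)
          _ ≤ f (n + 1) := (hind n).2
    have hbd : ∀ n, (q / 4) ^ n ≤ K / f 0 := by
      intro n
      rw [le_div_iff₀ hp, div_pow, div_mul_eq_mul_div, div_le_iff₀ (by positivity)]
      exact (hgeo n).trans (h2 n)
    have ht := tendsto_pow_atTop_atTop_of_one_lt (r := q / 4) (by linarith)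
    obtain ⟨n, hn⟩ := (ht.eventually_gt_atTop (K / f 0)).exists
    exact absurd (hbd n) (not_le.mpr hn)

theorem nra_thm : NRAStmt := by
  intro A _ τ hτ a ha hmom b
  set f : ℕ → ℝ := fun n => (τ (star (a ^ n * b) * (a ^ n * b))).re with hf
  have hsa : ∀ n, star (a ^ n) = a ^ n := fun n => (ha.pow n).star_eq
  have hprod : ∀ n k, star (a ^ n * b) * (a ^ k * b) = star b * a ^ (n + k) * b := by
    intro n k
    rw [star_mul, hsa, pow_add]
    simp only [mul_assoc]
  have h0 : ∀ n, 0 ≤ f n := fun n => (hτ.pos _).1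
  have h1 : ∀ n, f (n + 1) ^ 2 ≤ f n * f (n + 2) := by
    intro n
    have hquad : ∀ t : ℝ, 0 ≤ f (n + 2) * (t * t) + (2 * f (n + 1)) * t + f n := by
      intro t
      have hp := (hτ.pos (a ^ n * b + (t : ℂ) • (a ^ (n + 2) * b))).1
      have hexp : star (a ^ n * b + (t : ℂ) • (a ^ (n + 2) * b)) *
          (a ^ n * b + (t : ℂ) • (a ^ (n + 2) * b)) =
          star (a ^ n * b) * (a ^ n * b) +
            ((2 * t : ℝ) : ℂ) • (star (a ^ (n + 1) * b) * (a ^ (n + 1) * b)) +
            ((t * t : ℝ) : ℂ) • (star (a ^ (n + 2) * b) * (a ^ (n + 2) * b)) := by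
        rw [star_add, star_smul]
        simp only [add_mul, mul_add, smul_mul_assoc, mul_smul_comm, hprod]
        have e1 : n + (n + 2) = n + 1 + (n + 1) := by ring
        have e2 : n + 2 + n = n + 1 + (n + 1) := by ring
        rw [e1, e2]
        have e3 : star (t : ℂ) = (t : ℂ) := by simp
        rw [e3]
        push_cast
        module
      rw [hexp] at hp
      simp only [map_add, map_smul, smul_eq_mul, Complex.add_re, Complex.re_ofReal_mul] at hp
      have : f (n + 2) * (t * t) + (2 * f (n + 1)) * t + f n =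
          (τ (star (a ^ n * b) * (a ^ n * b))).re +
            2 * t * (τ (star (a ^ (n + 1) * b) * (a ^ (n + 1) * b))).re +
            t * t * (τ (star (a ^ (n + 2) * b) * (a ^ (n + 2) * b))).re := by
        simp only [hf]; ring
      rw [this]; exact hp
    have hd := discrim_le_zero hquad
    rw [discrim] at hd
    nlinarith [hd]
  have h2 : ∀ n, f n ≤ ‖b * star b‖ * 4 ^ n := by
    intro n
    let _ := CStarAlgebra.spectralOrder A
    let _ := CStarAlgebra.spectralOrderedRing A
    have hle : star (a ^ n) * (b * star b) * a ^ n ≤ ‖b * star b‖ • (star (a ^ n) * a ^ n) :=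
      CStarAlgebra.star_left_conjugate_le_norm_smul (IsSelfAdjoint.mul_star_self b)
    rw [← sub_nonneg, CStarAlgebra.nonneg_iff_eq_star_mul_self] at hle
    obtain ⟨d, hd⟩ := hle
    have hpos := (hτ.pos d).1
    rw [← hd] at hpos
    have e1 : τ (star (a ^ n * b) * (a ^ n * b)) = τ (star (a ^ n) * (b * star b) * a ^ n) := by
      rw [hτ.comm, star_mul, hsa]
      simp only [mul_assoc]
    have e2 : (‖b * star b‖ : ℝ) • (star (a ^ n) * a ^ n) =
        ((‖b * star b‖ : ℝ) : ℂ) • (a ^ (2 * n)) := by
      rw [hsa, ← pow_add, two_mul]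
      exact (Complex.coe_smul _ _).symm
    rw [e2, map_sub, map_smul, smul_eq_mul, Complex.sub_re, Complex.re_ofReal_mul, ← e1] at hpos
    have e3 : f n ≤ ‖b * star b‖ * (τ (a ^ (2 * n))).re := by
      simp only [hf]; linarith
    exact e3.trans (mul_le_mul_of_nonneg_left (hmom n) (norm_nonneg _))
  have hfin := nra_growth f _ h0 h1 h2
  have e0 : f 0 = (τ (star b * b)).re := by simp [hf]
  have e1 : f 1 = (τ (star b * a ^ 2 * b)).re := by
    simp only [hf]; rw [hprod]
  rw [← e0, ← e1]
  exact hfin

end Pool.CGR
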